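import Mathlib

/-!
# `492` equals its number of proper-divisor subset sums

The proper divisors of `492 = 12 * 41` are `1, 2, 3, 4, 6, 12` and `41 * 1, 41 * 2, 41 * 3, 41 * 4,
41 * 6`.  The subset sums are exactly the numbers `41 * k + r` with `k ≤ 16` and `r ≤ 28`; there are
`17 * 29 - 1 = 492` positive ones.  But `492` is not perfect.
-/

open Finset

namespace Pool.Agent.Results.MP_9bce75_nt.Not492

/-- `a n` is the number of distinct integers of the form `∑ d ∈ S, d`, where `S` runs over the
nonempty sets of proper divisors of `n`. -/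
def a (n : ℕ) : ℕ :=
  ((n.properDivisors.powerset.filter (·.Nonempty)).image (fun S => ∑ d ∈ S, d)).card

theorem a_six : a 6 = 6 := by decide +kernel

theorem a_four : a 4 = 3 := by decide +kernel

theorem properDivisors_492 :
    Nat.properDivisors 492 = {1, 2, 3, 4, 6, 12, 41, 82, 123, 164, 246} := by decide +kernel

/-- The proper divisors of `492` not divisible by `41`. -/
def A : Finset ℕ := {1, 2, 3, 4, 6, 12}

/-- The proper divisors of `492` divisible by `41`. -/
def B : Finset ℕ := {41, 82, 123, 164, 246}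

theorem split_492 : Nat.properDivisors 492 = A ∪ B := by
  rw [properDivisors_492]; decide +kernel

theorem disjoint_AB : Disjoint A B := by decide +kernel

theorem sum_A_lt : ∀ S ∈ A.powerset, ∑ d ∈ S, d < 29 := by decide +kernel

theorem sum_A_ex : ∀ r ∈ range 29, ∃ S ∈ A.powerset, ∑ d ∈ S, d = r := by decide +kernel

theorem sum_B_eq : ∀ S ∈ B.powerset, ∃ k ∈ range 17, ∑ d ∈ S, d = 41 * k := by decide +kernel

theorem sum_B_ex : ∀ k ∈ range 17, ∃ S ∈ B.powerset, ∑ d ∈ S, d = 41 * k := by decide +kernel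

theorem image_eq : ((A ∪ B).powerset.filter (·.Nonempty)).image (fun S => ∑ d ∈ S, d) =
    ((range 17 ×ˢ range 29).image (fun x => 41 * x.1 + x.2)).erase 0 := by
  ext s
  simp only [mem_image, mem_filter, mem_powerset, mem_erase, mem_product, Prod.exists]
  constructor
  · rintro ⟨S, ⟨hS, hne⟩, rfl⟩
    have hsum : ∑ d ∈ S, d = ∑ d ∈ S ∩ B, d + ∑ d ∈ S ∩ A, d := by
      rw [← Finset.sum_union]
      · congr 1
        rw [← Finset.inter_union_distrib_left, union_comm B A]
        exact (Finset.inter_eq_left.2 hS).symm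
      · exact Disjoint.mono inter_subset_right inter_subset_right disjoint_AB.symm
    obtain ⟨k, hk, hk'⟩ := sum_B_eq (S ∩ B) (mem_powerset.2 inter_subset_right)
    refine ⟨?_, k, ∑ d ∈ S ∩ A, d, ⟨hk, mem_range.2 ?_⟩, ?_⟩
    · obtain ⟨d, hd⟩ := hne
      have hd0 : 0 < d := by
        have h1 : ∀ d ∈ A ∪ B, 0 < d := by decide +kernel
        exact h1 d (hS hd)
      have : d ≤ ∑ d ∈ S, d :=
        Finset.single_le_sum (f := fun d : ℕ => d) (fun _ _ => Nat.zero_le _) hd
      omega
    · exact sum_A_lt _ (mem_powerset.2 inter_subset_right)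
    · rw [hsum, hk']
  · rintro ⟨hs0, k, r, ⟨hk, hr⟩, rfl⟩
    obtain ⟨S₁, hS₁, h₁⟩ := sum_B_ex k hk
    obtain ⟨S₂, hS₂, h₂⟩ := sum_A_ex r hr
    rw [mem_powerset] at hS₁ hS₂
    have hsum : ∑ d ∈ S₁ ∪ S₂, d = 41 * k + r := by
      rw [Finset.sum_union (Disjoint.mono hS₁ hS₂ disjoint_AB.symm), h₁, h₂]
    refine ⟨S₁ ∪ S₂, ⟨?_, ?_⟩, hsum⟩
    · exact union_subset (hS₁.trans subset_union_right) (hS₂.trans subset_union_left)
    · rw [Finset.nonempty_iff_ne_empty]
      intro he
      rw [he, Finset.sum_empty] at hsum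
      exact hs0 hsum.symm

theorem a_492 : a 492 = 492 := by
  unfold a
  rw [split_492, image_eq, card_erase_of_mem, card_image_of_injOn, card_product]
  · simp
  · rintro ⟨x₁, x₂⟩ hx ⟨y₁, y₂⟩ hy hxy
    simp only [coe_product, coe_range, Set.mem_prod, Set.mem_Iio] at hx hy
    simp only at hxy
    have h1 : x₁ = y₁ := by omega
    have h2 : x₂ = y₂ := by omega
    rw [h1, h2]
  · rw [mem_image]
    exact ⟨(0, 0), by decide, rfl⟩

theorem not_perfect_492 : ¬ Nat.Perfect 492 := by
  rw [Nat.perfect_iff_sum_properDivisors (by norm_num), properDivisors_492]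
  decide

/-- There is a positive integer `n` with `a n = n` which is not perfect. -/
theorem result : ∃ n : ℕ, 0 < n ∧ a n = n ∧ ¬ Nat.Perfect n :=
  ⟨492, by norm_num, a_492, not_perfect_492⟩

end Pool.Agent.Results.MP_9bce75_nt.Not492
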